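import Pool.Agent.Lib.MP_435322_an.GMain

/-! Every separable infinite-dimensional Banach space not isomorphic to l2 is ergodic. -/

namespace Pool.Agent.Results.MP_435322_an.Ergodic

open Pool.Agent.Lib.MP_435322_an.UD Filter

universe u w

theorem result (𝕜 : Type w) [RCLike 𝕜]
    (X : Type u) [NormedAddCommGroup X] [NormedSpace 𝕜 X] [CompleteSpace X]
    [TopologicalSpace.SeparableSpace X] (hinf : ¬ FiniteDimensional 𝕜 X)
    (h : ¬ Nonempty (X ≃L[𝕜] lp (fun _ : ℕ => 𝕜) 2)) :
    ∃ f : (ℕ → Bool) → ClosedSubmodule 𝕜 X, @Measurable _ _ _ (effros 𝕜 X) f ∧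
      (∀ a, ¬ FiniteDimensional 𝕜 (f a).toSubmodule) ∧
      ∀ a b : ℕ → Bool, (∀ᶠ n in atTop, a n = b n) ↔
        Nonempty ((f a).toSubmodule ≃L[𝕜] (f b).toSubmodule) := by
  classical
  have hF : Fam 𝕜 X := by
    refine fam_of_large ?_
    by_contra h1
    exact h (l2_of_hilbertian hinf (hilbertian_of_not_large h1))
  obtain ⟨S, hS1, hS2, hS3⟩ := hF
  have ht : ∀ n : ℕ, ∃ t : ℕ → Bool, ∀ a, FiniteDimensional 𝕜 (S a) →
      Module.finrank 𝕜 (S a) = n → ∀ᶠ k in atTop, a k = t k := by
    intro n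
    by_cases hn : ∃ t, FiniteDimensional 𝕜 (S t) ∧ Module.finrank 𝕜 (S t) = n
    · obtain ⟨t, h1, h2⟩ := hn
      exact ⟨t, fun a h3 h4 => (hS3 a t).2
        (FiniteDimensional.nonempty_continuousLinearEquiv_of_finrank_eq (h4.trans h2.symm))⟩
    · exact ⟨fun _ => true, fun a h3 h4 => (hn ⟨a, h3, h4⟩).elim⟩
  choose t ht using ht
  let r : (ℕ → Bool) → ℕ → Bool := fun a k =>
    if k % 2 = 0 then a (k / 2) else !t (Nat.unpair (k / 2)).1 k
  have hr : Continuous r := by
    refine continuous_pi fun k => ?_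
    by_cases hk : k % 2 = 0
    · simp only [r, hk, if_true]
      exact continuous_apply _
    · simp only [r, hk, if_false]
      exact continuous_const
  refine ⟨fun a => ⟨S (r a), hS1 _⟩, ?_, fun a ha => ?_, fun a b => ?_⟩
  · refine measurable_generateFrom ?_
    rintro _ ⟨U, hU, rfl⟩
    exact ((hS2 U hU).preimage hr).measurableSet
  · obtain ⟨N, hN⟩ := eventually_atTop.1 (ht _ (r a) ha rfl)
    set n := Module.finrank 𝕜 (S (r a))
    have h1 := Nat.right_le_pair n N
    have h2 := hN (2 * Nat.pair n N + 1) (by omega)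
    have h3 : (2 * Nat.pair n N + 1) % 2 ≠ 0 := by omega
    have h4 : (2 * Nat.pair n N + 1) / 2 = Nat.pair n N := by omega
    simp only [r, h3, if_false, h4, Nat.unpair_pair] at h2
    exact Bool.not_ne_self _ h2
  · refine Iff.trans ?_ (hS3 (r a) (r b))
    rw [eventually_atTop, eventually_atTop]
    constructor
    · rintro ⟨N, hN⟩
      refine ⟨2 * N, fun k hk => ?_⟩
      by_cases hk2 : k % 2 = 0
      · simp only [r, hk2, if_true]
        exact hN _ (by omega)
      · simp only [r, hk2, if_false]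
    · rintro ⟨N, hN⟩
      refine ⟨N, fun k hk => ?_⟩
      have h2 := hN (2 * k) (by omega)
      have h3 : (2 * k) % 2 = 0 := by omega
      have h4 : (2 * k) / 2 = k := by omega
      simpa only [r, h3, if_true, h4] using h2

end Pool.Agent.Results.MP_435322_an.Ergodic
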